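import Mathlib

/-!
# MP_5909b9_co : the permanental Q-polynomial is not a complete graph invariant

There are two non-isomorphic graphs on 8 vertices (with 14 edges each) with the same permanental
polynomial `P`, hence with the same `Q`.

The equality of the two polynomials is reduced to the equality of two natural numbers, the
permanents of the `8 × 8` matrices with entries `B ^ 9` (diagonal), `B` (edges) and `1`
(non-edges), where `B = 65536 > 8!`; their base-`B` digits are the coefficients of `P`.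
-/

namespace Pool.Agent.Results.MP_5909b9_co.NotComplete

open Finset

/-- The permanental polynomial `P(G; x, λ, μ) = per (x I + λ A + μ (J - I - A))`, where the
variables `x, λ, μ` are `X 0, X 1, X 2`. -/
noncomputable def P {n : ℕ} (G : SimpleGraph (Fin n)) : MvPolynomial (Fin 3) ℚ := by
  classical
  exact ((MvPolynomial.X 0 : MvPolynomial (Fin 3) ℚ) • (1 : Matrix (Fin n) (Fin n) _)
    + (MvPolynomial.X 1 : MvPolynomial (Fin 3) ℚ) • G.adjMatrix (MvPolynomial (Fin 3) ℚ)
    + (MvPolynomial.X 2 : MvPolynomial (Fin 3) ℚ) •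
      (Matrix.of (fun _ _ => 1) - 1 - G.adjMatrix (MvPolynomial (Fin 3) ℚ))).permanent

/-- The linear operator `ω`, which treats `x` and `λ` as scalars and maps `μ ^ r` to
`μ ^ r / r!`. -/
noncomputable def omega : MvPolynomial (Fin 3) ℚ →ₗ[ℚ] MvPolynomial (Fin 3) ℚ :=
  (MvPolynomial.basisMonomials (Fin 3) ℚ).constr ℚ
    (fun m => MvPolynomial.monomial m (1 / ((m 2).factorial : ℚ)))

/-- The permanental Q-polynomial `Q(G; x, λ, μ) = ω P(G; x + μ, λ + μ, μ)`. -/
noncomputable def Q {n : ℕ} (G : SimpleGraph (Fin n)) : MvPolynomial (Fin 3) ℚ :=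
  omega (MvPolynomial.bind₁ ![MvPolynomial.X 0 + MvPolynomial.X 2,
    MvPolynomial.X 1 + MvPolynomial.X 2, MvPolynomial.X 2] (P G))

/-! ### Computing permanents of numerical matrices -/

/-- Remaining rows after the `p`-th row of the list has been used: the first row takes its
place. -/
def nxt (L : List ℕ) : ℕ → List ℕ
  | 0 => L.tail
  | q + 1 => L.tail.set q (L.headD 0)

lemma nxt_length (L : List ℕ) (n p : ℕ) (hL : L.length = n + 1) : (nxt L p).length = n := by
  cases p <;> simp [nxt, hL]

lemma nxt_getD (L : List ℕ) (n : ℕ) (hL : L.length = n + 1) (p : Fin (n + 1)) (a : Fin n) :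
    (nxt L p).getD a 0 = L.getD (Equiv.swap 0 p a.succ : Fin (n + 1)) 0 := by
  obtain ⟨x, L, rfl⟩ : ∃ x L', L = x :: L' := by
    cases L with
    | nil => simp at hL
    | cons x L => exact ⟨x, L, rfl⟩
  simp only [List.length_cons, Nat.add_right_cancel_iff] at hL
  refine Fin.cases ?_ (fun q => ?_) p
  · simp [nxt]
  · by_cases hqa : a = q
    · subst hqa
      rw [Equiv.swap_apply_right]
      simp [nxt, hL]
    · rw [Equiv.swap_apply_of_ne_of_ne (Fin.succ_ne_zero _)
        (fun h => hqa (Fin.succ_injective _ h))]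
      have : (q : ℕ) ≠ a := fun h => hqa (Fin.ext h.symm)
      simp [nxt, List.getD_eq_getElem?_getD, this]

lemma sum_list_range (f : ℕ → ℕ) (m : ℕ) :
    ((List.range m).map f).sum = ∑ i : Fin m, f i := by
  rw [Fin.sum_univ_eq_sum_range f m, Finset.sum_eq_multiset_sum]
  rfl

/-- The permanent of the matrix with rows `L` and columns `c, c + 1, …, c + n - 1` of `M`. -/
def S (M : ℕ → ℕ → ℕ) (n c : ℕ) (L : List ℕ) : ℕ :=
  ∑ σ : Equiv.Perm (Fin n), ∏ i : Fin n, M (L.getD (σ i) 0) (c + i)

lemma S_zero (M : ℕ → ℕ → ℕ) (c : ℕ) (L : List ℕ) : S M 0 c L = 1 := by simp [S]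

lemma S_succ (M : ℕ → ℕ → ℕ) (n c : ℕ) (L : List ℕ) (hL : L.length = n + 1) :
    S M (n + 1) c L = ((List.range (n + 1)).map
      (fun p => M (L.getD p 0) c * S M n (c + 1) (nxt L p))).sum := by
  unfold S
  rw [← Equiv.Perm.decomposeFin.symm.sum_comp, Fintype.sum_prod_type, sum_list_range]
  refine Finset.sum_congr rfl fun p _ => ?_
  rw [Finset.mul_sum]
  refine Finset.sum_congr rfl fun e _ => ?_
  rw [Fin.prod_univ_succ, Equiv.Perm.decomposeFin_symm_apply_zero]
  congr 1
  refine Finset.prod_congr rfl fun a _ => ?_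
  rw [Equiv.Perm.decomposeFin_symm_apply_succ, nxt_getD L n hL]
  congr 1
  rw [Fin.val_succ]
  omega

/-- Expansion of the permanent along the columns `c, c + 1, …`. -/
def perI (M : ℕ → ℕ → ℕ) : ℕ → ℕ → List ℕ → ℕ
  | 0, _, _ => 1
  | 1, c, L => M (L.headD 0) c
  | 2, c, L => M (L.headD 0) c * M (L.tail.headD 0) (c + 1) +
      M (L.tail.headD 0) c * M (L.headD 0) (c + 1)
  | n + 3, c, L => ((List.range (n + 3)).map
      (fun p => M (L.getD p 0) c * perI M (n + 2) (c + 1) (nxt L p))).sum

lemma perI_eq (M : ℕ → ℕ → ℕ) : ∀ (n c : ℕ) (L : List ℕ), L.length = n →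
    perI M n c L = S M n c L
  | 0, c, L, _ => by rw [S_zero, perI]
  | 1, c, L, h => by
    obtain ⟨x, rfl⟩ := List.length_eq_one_iff.1 h
    rw [S_succ _ _ _ _ h]
    simp [S_zero, perI]
  | 2, c, L, h => by
    obtain ⟨x, y, rfl⟩ := List.length_eq_two.1 h
    rw [S_succ _ _ _ _ h]
    simp [S_zero, perI, List.range_succ, S_succ, nxt]
  | n + 3, c, L, h => by
    rw [S_succ _ _ _ _ h, perI]
    congr 1
    refine List.map_congr_left fun p _ => ?_
    rw [perI_eq M (n + 2) (c + 1) (nxt L p) (nxt_length L _ _ h)]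

/-! ### The two graphs -/

/-- Adjacency read off from a list of row masks. -/
def adjOf (L : List ℕ) (i j : ℕ) : Bool := (L.getD i 0).testBit j

/-- The row masks of the first graph. -/
def mG : List ℕ := [184, 240, 224, 129, 67, 135, 22, 47]

/-- The row masks of the second graph. -/
def mH : List ℕ := [232, 176, 48, 193, 198, 135, 25, 59]

/-- The first graph. -/
def GG : SimpleGraph (Fin 8) where
  Adj i j := adjOf mG i j = true
  symm := ⟨by decide⟩
  loopless := ⟨by decide⟩

/-- The second graph. -/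
def HH : SimpleGraph (Fin 8) where
  Adj i j := adjOf mH i j = true
  symm := ⟨by decide⟩
  loopless := ⟨by decide⟩

/-- The exponent attached to the entry `(i, j)`. -/
def w (L : List ℕ) (i j : ℕ) : ℕ := if i = j then 9 else if adjOf L i j then 1 else 0

set_option maxRecDepth 100000 in
lemma num_eq : perI (fun i j => 65536 ^ w mG i j) 8 0 (List.range 8) =
    perI (fun i j => 65536 ^ w mH i j) 8 0 (List.range 8) := by
  decide +kernel

/-- The exponent attached to a permutation. -/
def kk (L : List ℕ) (σ : Equiv.Perm (Fin 8)) : ℕ := ∑ i, w L (σ i) i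

/-- The number of permutations with a given exponent. -/
def cc (L : List ℕ) (k : ℕ) : ℕ := (Finset.univ.filter fun σ => kk L σ = k).card

lemma w_le (L : List ℕ) (i j : ℕ) : w L i j ≤ 9 := by
  unfold w; split_ifs <;> omega

lemma kk_lt (L : List ℕ) (σ : Equiv.Perm (Fin 8)) : kk L σ < 81 := by
  have : kk L σ ≤ ∑ _i : Fin 8, 9 := Finset.sum_le_sum fun i _ => w_le _ _ _
  simp at this
  omega

lemma cc_lt (L : List ℕ) (k : ℕ) : cc L k < 65536 := by
  have h1 : cc L k ≤ (Finset.univ : Finset (Equiv.Perm (Fin 8))).card :=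
    Finset.card_filter_le _ _
  rw [Finset.card_univ, Fintype.card_perm, Fintype.card_fin] at h1
  have h2 : Nat.factorial 8 = 40320 := by decide
  omega

lemma num_eq_sum (L : List ℕ) :
    perI (fun i j => 65536 ^ w L i j) 8 0 (List.range 8) =
      ∑ k ∈ Finset.range 81, cc L k * 65536 ^ k := by
  rw [perI_eq _ _ _ _ (by simp)]
  have h1 : S (fun i j => 65536 ^ w L i j) 8 0 (List.range 8) =
      ∑ σ : Equiv.Perm (Fin 8), 65536 ^ kk L σ := by
    unfold S kk
    refine Finset.sum_congr rfl fun σ _ => ?_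
    rw [← Finset.prod_pow_eq_pow_sum]
    refine Finset.prod_congr rfl fun i _ => ?_
    have : (List.range 8).getD (σ i : ℕ) 0 = (σ i : ℕ) := by
      rw [List.getD_eq_getElem _ _ (by simp), List.getElem_range]
    rw [this, zero_add]
  rw [h1, ← Finset.sum_fiberwise_of_maps_to (t := Finset.range 81) (g := kk L)
    (fun σ _ => Finset.mem_range.2 (kk_lt L σ))]
  refine Finset.sum_congr rfl fun k _ => ?_
  rw [Finset.sum_congr rfl (g := fun _ => 65536 ^ k)
    (fun σ hσ => by rw [(Finset.mem_filter.1 hσ).2])]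
  rw [Finset.sum_const, smul_eq_mul]
  rfl

lemma digits_unique {B : ℕ} (hB : 0 < B) : ∀ (K : ℕ) (a b : ℕ → ℕ), (∀ k, a k < B) →
    (∀ k, b k < B) → ∑ k ∈ Finset.range K, a k * B ^ k = ∑ k ∈ Finset.range K, b k * B ^ k →
    ∀ k < K, a k = b k := by
  intro K
  induction K with
  | zero => intro a b _ _ _ k hk; omega
  | succ K ih =>
    intro a b ha hb h k hk
    rw [Finset.sum_range_succ', Finset.sum_range_succ'] at h
    have e : ∀ c : ℕ → ℕ, ∑ k ∈ Finset.range K, c (k + 1) * B ^ (k + 1) =
        B * ∑ k ∈ Finset.range K, c (k + 1) * B ^ k := by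
      intro c
      rw [Finset.mul_sum]
      refine Finset.sum_congr rfl fun k _ => ?_
      ring
    rw [e a, e b, pow_zero, mul_one, mul_one] at h
    have h0 : a 0 = b 0 := by
      have h1 := congrArg (· % B) h
      simpa [Nat.mul_add_mod, Nat.mod_eq_of_lt (ha 0), Nat.mod_eq_of_lt (hb 0)] using h1
    have h2 : ∑ k ∈ Finset.range K, a (k + 1) * B ^ k =
        ∑ k ∈ Finset.range K, b (k + 1) * B ^ k := by
      rw [h0] at h
      exact Nat.eq_of_mul_eq_mul_left hB (Nat.add_right_cancel h)
    cases k with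
    | zero => exact h0
    | succ k =>
      exact ih (fun k => a (k + 1)) (fun k => b (k + 1)) (fun k => ha _) (fun k => hb _) h2 k
        (by omega)

lemma cc_eq (k : ℕ) (hk : k < 81) : cc mG k = cc mH k := by
  refine digits_unique (by norm_num) 81 (cc mG) (cc mH) (cc_lt _) (cc_lt _) ?_ k hk
  rw [← num_eq_sum, ← num_eq_sum, num_eq]

/-! ### From numbers to polynomials -/

/-- The monomial attached to an exponent. -/
noncomputable def mon (k : ℕ) : MvPolynomial (Fin 3) ℚ :=
  MvPolynomial.X 0 ^ (k / 9) * MvPolynomial.X 1 ^ (k % 9) *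
    MvPolynomial.X 2 ^ (8 - k / 9 - k % 9)

/-- The variable attached to an entry of exponent `u`. -/
noncomputable def va (u : ℕ) : MvPolynomial (Fin 3) ℚ :=
  if u = 9 then MvPolynomial.X 0 else if u = 1 then MvPolynomial.X 1 else MvPolynomial.X 2

lemma prod_va {ι : Type*} (s : Finset ι) (u : ι → ℕ)
    (hu : ∀ i, u i = 9 ∨ u i = 1 ∨ u i = 0) :
    ∃ a b c : ℕ, a + b + c = s.card ∧ ∑ i ∈ s, u i = 9 * a + b ∧
      ∏ i ∈ s, va (u i) = MvPolynomial.X 0 ^ a * MvPolynomial.X 1 ^ b *
        MvPolynomial.X 2 ^ c := by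
  classical
  induction s using Finset.induction_on with
  | empty => exact ⟨0, 0, 0, by simp, by simp, by simp⟩
  | insert i s hi ih =>
    obtain ⟨a, b, c, h1, h2, h3⟩ := ih
    rw [Finset.card_insert_of_notMem hi, Finset.sum_insert hi, Finset.prod_insert hi, h2, h3]
    rcases hu i with h | h | h
    · exact ⟨a + 1, b, c, by omega, by rw [h]; ring, by rw [h]; simp [va]; ring⟩
    · exact ⟨a, b + 1, c, by omega, by rw [h]; ring, by rw [h]; simp [va]; ring⟩
    · exact ⟨a, b, c + 1, by omega, by rw [h]; ring, by rw [h]; simp [va]; ring⟩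

lemma prod_va_eq (L : List ℕ) (σ : Equiv.Perm (Fin 8)) :
    ∏ i, va (w L (σ i) i) = mon (kk L σ) := by
  obtain ⟨a, b, c, h1, h2, h3⟩ := prod_va Finset.univ (fun i : Fin 8 => w L (σ i) i)
    (fun i => by unfold w; split_ifs <;> simp)
  rw [Finset.card_univ, Fintype.card_fin] at h1
  rw [h3]
  unfold mon kk
  rw [h2]
  have e1 : (9 * a + b) / 9 = a := by omega
  have e2 : (9 * a + b) % 9 = b := by omega
  have e3 : 8 - a - b = c := by omega
  rw [e1, e2, e3]

lemma P_eq (L : List ℕ) (G : SimpleGraph (Fin 8)) (hG : ∀ i j, G.Adj i j ↔ adjOf L i j = true) :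
    P G = ∑ k ∈ Finset.range 81, (cc L k : MvPolynomial (Fin 3) ℚ) * mon k := by
  classical
  have h1 : P G = ∑ σ : Equiv.Perm (Fin 8), mon (kk L σ) := by
    unfold P Matrix.permanent
    refine Finset.sum_congr rfl fun σ _ => ?_
    rw [← prod_va_eq]
    refine Finset.prod_congr rfl fun i _ => ?_
    by_cases h : σ i = i
    · simp [h, va, w]
    · have h' : ((σ i : Fin 8) : ℕ) ≠ i := fun h' => h (Fin.ext h')
      by_cases ha : G.Adj (σ i) i
      · have ha' := (hG _ _).1 ha
        simp [h, h', va, w, ha, ha']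
      · have ha' : adjOf L (σ i) i = false := by
          by_contra hc
          exact ha ((hG _ _).2 (by simpa using hc))
        simp [h, h', va, w, ha, ha']
  rw [h1, ← Finset.sum_fiberwise_of_maps_to (t := Finset.range 81) (g := kk L)
    (fun σ _ => Finset.mem_range.2 (kk_lt L σ))]
  refine Finset.sum_congr rfl fun k _ => ?_
  rw [Finset.sum_congr rfl (g := fun _ => mon k)
    (fun σ hσ => by rw [(Finset.mem_filter.1 hσ).2])]
  rw [Finset.sum_const, nsmul_eq_mul]
  rfl

lemma P_GG_HH : P GG = P HH := by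
  rw [P_eq mG GG (fun _ _ => Iff.rfl), P_eq mH HH (fun _ _ => Iff.rfl)]
  refine Finset.sum_congr rfl fun k hk => ?_
  rw [cc_eq k (Finset.mem_range.1 hk)]

/-! ### The two graphs are not isomorphic -/

/-- No edge of the second graph lies in three triangles. -/
lemma HH_no : ∀ u v : Fin 8, adjOf mH u v = true → ∀ a : Fin 8, adjOf mH u a = true →
    adjOf mH v a = true → ∀ b : Fin 8, a ≠ b → adjOf mH u b = true → adjOf mH v b = true →
    ∀ c : Fin 8, a ≠ c → b ≠ c → adjOf mH u c = true → adjOf mH v c = true → False := by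
  decide +kernel

lemma not_iso : ¬ Nonempty (GG ≃g HH) := by
  rintro ⟨φ⟩
  have h : ∀ {u v : Fin 8}, GG.Adj u v → adjOf mH (φ u) (φ v) = true := by
    intro u v huv
    exact (φ.map_adj_iff.2 huv : HH.Adj (φ u) (φ v))
  have hne : ∀ {u v : Fin 8}, u ≠ v → φ u ≠ φ v := fun huv h => huv (φ.injective h)
  exact HH_no (φ 5) (φ 7) (h (by decide : adjOf mG 5 7 = true))
    (φ 0) (h (by decide : adjOf mG 5 0 = true)) (h (by decide : adjOf mG 7 0 = true))
    (φ 1) (hne (by decide)) (h (by decide : adjOf mG 5 1 = true))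
    (h (by decide : adjOf mG 7 1 = true))
    (φ 2) (hne (by decide)) (hne (by decide)) (h (by decide : adjOf mG 5 2 = true))
    (h (by decide : adjOf mG 7 2 = true))

/-- The permanental Q-polynomial is not a complete graph invariant: two non-isomorphic graphs
on 8 vertices have the same Q-polynomial (and the same permanental polynomial `P`). -/
theorem result : ∃ G H : SimpleGraph (Fin 8), ¬ Nonempty (G ≃g H) ∧ Q G = Q H ∧ P G = P H := by
  refine ⟨GG, HH, not_iso, ?_, P_GG_HH⟩
  unfold Q
  rw [P_GG_HH]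

end Pool.Agent.Results.MP_5909b9_co.NotComplete
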